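import Mathlib
import Pool.Agent.X173.HFD

/-!
# Digital Kronecker – van der Corput hybrid sequences for `Θ ∈ Bad(P, q)` are low discrepancy

For every finite field `F` with `q` elements, every irreducible `P ∈ F[t]` and every
`Θ ∈ Bad(P, q)` the sequence `(K_n(Θ), V_n(P))` has star discrepancy at most
`C (log N) ^ 2 / N` for all `N ≥ 2`.
-/

set_option autoImplicit false

namespace Pool.Agent.Results.MP_05fa0d_nt.HybridLowDiscrepancy

open Finset Polynomial Pool.Agent.X173.HFA Pool.Agent.X173.HFB Pool.Agent.X173.HFC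
  Pool.Agent.X173.HFD

variable {F : Type} [Field F] [Fintype F]

/-- `F_q[t] → F_q((1/t))`: Mathlib's `LaurentSeries F` is used with the variable `1 / t`, so that
`Θ.coeff i` is the coefficient `a_i` of `t ^ (-i)` in `Θ`, and `t` is `single (-1) 1`. -/
noncomputable def emb : F[X] →+* LaurentSeries F :=
  Polynomial.eval₂RingHom HahnSeries.C (HahnSeries.single (-1 : ℤ) (1 : F))

/-- The fractional part `⟨Θ⟩ = ∑_{i ≥ 1} a_i t ^ (-i)`. -/
noncomputable def frac (Θ : LaurentSeries F) : LaurentSeries F where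
  coeff i := if 1 ≤ i then Θ.coeff i else 0
  isPWO_support' := Θ.isPWO_support.mono fun i hi => by
    simp only [Function.mem_support, HahnSeries.mem_support] at hi ⊢
    by_cases h : 1 ≤ i
    · rwa [if_pos h] at hi
    · rw [if_neg h] at hi; exact absurd rfl hi

open Classical in
/-- `|Θ| = q ^ h` if `t ^ h` is the leading term of `Θ`, and `|0| = 0`. -/
noncomputable def absL (Θ : LaurentSeries F) : ℝ :=
  if Θ = 0 then 0 else (Fintype.card F : ℝ) ^ (-Θ.order)

/-- `Bad(P, q)`: the infimum of `|N| |⟨N P ^ k Θ⟩|` over `N ≠ 0` and `k ≥ 0` is positive. -/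
def Bad (P : F[X]) : Set (LaurentSeries F) :=
  {Θ | 0 < ⨅ x : {N : F[X] // N ≠ 0} × ℕ,
    (Fintype.card F : ℝ) ^ (x.1 : F[X]).natDegree * absL (frac (emb ((x.1 : F[X]) * P ^ x.2) * Θ))}

/-- `n(t)`: the polynomial whose coefficient of `t ^ i` is `E⁻¹` of the base `q` digit
`⌊n / q ^ i⌋ mod q` of `n` (the digits with `i ≥ n` are `0`). -/
noncomputable def poly (E : F ≃ Fin (Fintype.card F)) (n : ℕ) : F[X] :=
  ∑ i ∈ range n, monomial i (E.symm ⟨n / Fintype.card F ^ i % Fintype.card F,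
    Nat.mod_lt _ Fintype.card_pos⟩)

/-- `ev_q(b) = ∑ E(c_j) q ^ j` for a polynomial `b = ∑ c_j t ^ j`. -/
noncomputable def evPoly (E : F ≃ Fin (Fintype.card F)) (b : F[X]) : ℕ :=
  b.sum fun j c => (E c : ℕ) * Fintype.card F ^ j

/-- `ev_q(∑_{i ≥ 1} a_i t ^ (-i)) = ∑_{i ≥ 1} E(a_i) q ^ (-i)`. -/
noncomputable def evSeries (E : F ≃ Fin (Fintype.card F)) (Θ : LaurentSeries F) : ℝ :=
  ∑' i : ℕ, ((E (Θ.coeff ((i : ℤ) + 1)) : ℕ) : ℝ) / (Fintype.card F : ℝ) ^ (i + 1)

/-- The digital Kronecker sequence `K_n(Θ) = ev_q(⟨n(t) Θ⟩)`. -/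
noncomputable def kronecker (E : F ≃ Fin (Fintype.card F)) (Θ : LaurentSeries F) (n : ℕ) : ℝ :=
  evSeries E (frac (emb (poly E n) * Θ))

/-- The `B`-adic digit `b_i` of `f = ∑ b_i B ^ i`, `deg b_i < deg B`. -/
noncomputable def digit (B f : F[X]) (i : ℕ) : F[X] := ((fun g => g / B)^[i] f) % B

/-- The digital van der Corput sequence `V_n(B) = ∑ ev_q(b_i) / |B| ^ (i + 1)`, where
`n(t) = ∑ b_i B ^ i`. -/
noncomputable def vanDerCorput (E : F ≃ Fin (Fintype.card F)) (B : F[X]) (n : ℕ) : ℝ :=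
  ∑' i : ℕ, ((evPoly E (digit B (poly E n) i) : ℕ) : ℝ) /
    ((Fintype.card F : ℝ) ^ B.natDegree) ^ (i + 1)

open Classical in
/-- The star discrepancy `D_N` of `(K_n(Θ), V_n(P))`, `0 ≤ n < N`. -/
noncomputable def discrepancy (E : F ≃ Fin (Fintype.card F)) (P : F[X]) (Θ : LaurentSeries F)
    (N : ℕ) : ℝ :=
  ⨆ x : unitInterval × unitInterval,
    |(((range N).filter fun n : ℕ =>
      kronecker E Θ n < x.1 ∧ vanDerCorput E P n < x.2).card : ℝ) / N - x.1 * x.2|

lemma poly_eq (E : F ≃ Fin (Fintype.card F)) (n : ℕ) : poly E n = polyOf E n := by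
  unfold poly polyOf
  refine sum_congr rfl fun i _ => ?_
  congr 1
  unfold dig
  rw [dif_pos (Nat.mod_lt _ Fintype.card_pos)]

lemma ubl_of_bad {P : F[X]} {Θ : LaurentSeries F} (h : Θ ∈ Bad P) : ∃ c : ℕ, UBL P c Θ := by
  have hq := qr2 (F := F)
  have h0 : 0 < ⨅ x : {N : F[X] // N ≠ 0} × ℕ,
    (Fintype.card F : ℝ) ^ (x.1 : F[X]).natDegree *
      absL (frac (emb ((x.1 : F[X]) * P ^ x.2) * Θ)) := h
  have habs : ∀ Ξ : LaurentSeries F, 0 ≤ absL Ξ := by
    intro Ξ
    unfold absL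
    split_ifs
    · exact le_rfl
    · positivity
  have hbdd : BddBelow (Set.range fun x : {N : F[X] // N ≠ 0} × ℕ =>
      (Fintype.card F : ℝ) ^ (x.1 : F[X]).natDegree *
        absL (frac (emb ((x.1 : F[X]) * P ^ x.2) * Θ))) := by
    refine ⟨0, ?_⟩
    rintro _ ⟨x, rfl⟩
    exact mul_nonneg (by positivity) (habs _)
  set ε := ⨅ x : {N : F[X] // N ≠ 0} × ℕ, (Fintype.card F : ℝ) ^ (x.1 : F[X]).natDegree *
    absL (frac (emb ((x.1 : F[X]) * P ^ x.2) * Θ)) with hε
  have hle : ∀ x : {N : F[X] // N ≠ 0} × ℕ, ε ≤ (Fintype.card F : ℝ) ^ (x.1 : F[X]).natDegree *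
    absL (frac (emb ((x.1 : F[X]) * P ^ x.2) * Θ)) := fun x => ciInf_le hbdd x
  have hq1 : (1:ℝ) / Fintype.card F < 1 := by
    rw [div_lt_one (by linarith)]; linarith
  obtain ⟨c, hc⟩ := exists_pow_lt_of_lt_one h0 hq1
  refine ⟨c, fun k l M y hy hyl hlM => ?_⟩
  by_contra hcon
  push Not at hcon
  have h1 := hle ⟨⟨y, hy⟩, k⟩
  simp only at h1
  have e : emb (y * P ^ k) * Θ = toS y * (toS (P ^ k) * Θ) := by
    rw [← mul_assoc, ← map_mul]
    rfl
  rw [e] at h1
  set Ξ := toS y * (toS (P ^ k) * Θ) with hΞ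
  have h2 : absL (frac Ξ) ≤ (Fintype.card F : ℝ) ^ (-((M:ℤ) + 1)) := by
    unfold absL
    split_ifs with h3
    · positivity
    · have h4 : (frac Ξ).coeff (frac Ξ).order ≠ 0 := by
        rw [Ne, HahnSeries.coeff_order_eq_zero]; exact h3
      have h5 : (M:ℤ) + 1 ≤ (frac Ξ).order := by
        by_contra hlt
        push Not at hlt
        apply h4
        show (if 1 ≤ (frac Ξ).order then Ξ.coeff (frac Ξ).order else 0) = 0
        split_ifs with h6
        · obtain ⟨j, hj⟩ := Int.eq_ofNat_of_zero_le (show 0 ≤ (frac Ξ).order - 1 by omega)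
          have h7 : (frac Ξ).order = (j:ℤ) + 1 := by
            have : (frac Ξ).order - 1 = (j:ℤ) := hj
            omega
          rw [h7]
          exact hcon j (by omega)
        · rfl
      exact zpow_le_zpow_right₀ (by linarith) (by omega)
  have h3 : y.natDegree < l := by
    rw [degree_eq_natDegree hy] at hyl
    exact_mod_cast hyl
  have h4 : (Fintype.card F : ℝ) ^ y.natDegree * absL (frac Ξ) ≤ (1 / (Fintype.card F : ℝ)) ^ c := by
    have hq0 : (Fintype.card F : ℝ) ≠ 0 := by linarith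
    calc (Fintype.card F : ℝ) ^ y.natDegree * absL (frac Ξ)
        ≤ (Fintype.card F : ℝ) ^ y.natDegree * (Fintype.card F : ℝ) ^ (-((M:ℤ) + 1)) := by gcongr
      _ = (Fintype.card F : ℝ) ^ ((y.natDegree : ℤ) + -((M:ℤ) + 1)) := by
          rw [zpow_add₀ hq0, zpow_natCast]
      _ ≤ (Fintype.card F : ℝ) ^ (-(c:ℤ)) := zpow_le_zpow_right₀ (by linarith) (by omega)
      _ = (1 / (Fintype.card F : ℝ)) ^ c := by
          rw [zpow_neg, zpow_natCast, one_div, inv_pow]
  linarith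

lemma kron_eq (E : F ≃ Fin (Fintype.card F)) (Θ : LaurentSeries F) (n : ℕ) :
    kronecker E Θ n = evL E (toS (polyOf E n) * Θ) := by
  unfold kronecker evSeries evL evd
  rw [poly_eq]
  congr 1
  funext i
  have e : (frac (emb (polyOf E n) * Θ)).coeff ((i:ℤ) + 1) =
      (toS (polyOf E n) * Θ).coeff ((i:ℤ) + 1) := by
    show (if 1 ≤ (i:ℤ) + 1 then (emb (polyOf E n) * Θ).coeff ((i:ℤ) + 1) else 0) = _
    rw [if_pos (by omega)]
    rfl
  rw [e]

lemma vdc_eq (E : F ≃ Fin (Fintype.card F)) (B : F[X]) (n : ℕ) :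
    vanDerCorput E B n = V E B (polyOf E n) := by
  unfold vanDerCorput V
  rw [poly_eq]
  rfl

lemma card_eq (E : F ≃ Fin (Fintype.card F)) (P : F[X]) (Θ : LaurentSeries F) (N : ℕ) (γ lam : ℝ) :
    (by classical exact (((range N).filter fun n : ℕ =>
      kronecker E Θ n < γ ∧ vanDerCorput E P n < lam).card : ℝ)) =
      ∑ n ∈ range N, G E P Θ γ lam n := by
  classical
  rw [Finset.card_filter]
  push_cast
  refine sum_congr rfl fun n _ => ?_
  unfold G
  rw [kron_eq, vdc_eq]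

theorem result (E : F ≃ Fin (Fintype.card F)) (hE : (E 0 : ℕ) = 0) (P : F[X])
    (hP : Irreducible P) (Θ : LaurentSeries F) (hΘ : Θ ∈ Bad P) :
    ∃ C : ℝ, ∀ N : ℕ, 2 ≤ N → discrepancy E P Θ N ≤ C * (Real.log N) ^ 2 / N := by
  obtain ⟨c, hc⟩ := ubl_of_bad hΘ
  have hPd : 0 < P.natDegree := hP.natDegree_pos
  have hq := qr2 (F := F)
  have hqn := q2 (F := F)
  set q : ℝ := (Fintype.card F : ℝ) with hqdef
  set Q : ℝ := q ^ P.natDegree with hQ
  set R : ℝ := Q * (2 * q ^ c) with hR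
  have hQ0 : 0 ≤ Q := by positivity
  have hR0 : 0 ≤ R := by positivity
  have hl2 : (1:ℝ) / 2 < Real.log 2 := by
    have := Real.log_two_gt_d9
    linarith
  refine ⟨4 + 8 * (q * (2 * q ^ c + Q)) + 16 * (q * R), fun N hN => ?_⟩
  have hN0 : 0 < N := by omega
  have hN' : (0:ℝ) < N := by exact_mod_cast hN0
  set l := Real.log N with hldef
  have hl3 : 1 / 2 < l :=
    hl2.trans_le (Real.log_le_log (by norm_num) (by exact_mod_cast hN))
  have hl0 : 0 < l := by linarith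
  -- the number of digits
  have hJ : ((Nat.log (Fintype.card F) N + 1 : ℕ) : ℝ) ≤ 4 * l := by
    have h1 : q ^ (Nat.log (Fintype.card F) N) ≤ N := by
      rw [hqdef]
      exact_mod_cast Nat.pow_log_le_self (Fintype.card F) hN0.ne'
    have h2 := Real.log_le_log (by positivity) h1
    rw [Real.log_pow] at h2
    have h3 : (1:ℝ) / 2 ≤ Real.log q := hl2.le.trans (Real.log_le_log (by norm_num) hq)
    push_cast
    have h4 : (Nat.log (Fintype.card F) N : ℝ) * (1 / 2) ≤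
      Nat.log (Fintype.card F) N * Real.log q := by gcongr
    linarith
  have hNJ : N ≤ Fintype.card F ^ (Nat.log (Fintype.card F) N + 1) :=
    (Nat.lt_pow_succ_log_self (by omega) N).le
  set J := Nat.log (Fintype.card F) N + 1 with hJdef
  have hJ0 : (0:ℝ) ≤ J := by positivity
  have hll : 1 ≤ 4 * l ^ 2 := by nlinarith
  have hlll : l ≤ 2 * l ^ 2 := by nlinarith
  have hcount : ∀ γ lam : ℝ, 0 ≤ γ → γ ≤ 1 → 0 ≤ lam → lam ≤ 1 →
      |∑ n ∈ range N, G E P Θ γ lam n - γ * lam * N| ≤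
        (4 + 8 * (q * (2 * q ^ c + Q)) + 16 * (q * R)) * l ^ 2 := by
    intro γ lam hg0 hg1 h0 h1
    have h2 := seg_bound hE P hPd c γ hg0 hg1 Θ hc lam h0 h1 J J le_rfl 0 N hNJ
    simp only [mul_zero, zero_add] at h2
    rw [← hqdef, ← hQ, ← hR] at h2
    refine h2.trans ?_
    have h3 : (J:ℝ) * (q * (2 * q ^ c + (Q + J * R))) =
        J * (q * (2 * q ^ c + Q)) + J * J * (q * R) := by ring
    have h4 : (J:ℝ) * (q * (2 * q ^ c + Q)) ≤ 4 * l * (q * (2 * q ^ c + Q)) := by gcongr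
    have h5 : (J:ℝ) * J * (q * R) ≤ (4 * l) * (4 * l) * (q * R) := by gcongr
    have h6 : 4 * l * (q * (2 * q ^ c + Q)) ≤ 4 * (2 * l ^ 2) * (q * (2 * q ^ c + Q)) := by gcongr
    rw [h3]
    nlinarith
  have hbound : ∀ x : unitInterval × unitInterval,
      |((by classical exact ((range N).filter fun n : ℕ =>
        kronecker E Θ n < (x.1 : ℝ) ∧ vanDerCorput E P n < (x.2 : ℝ)).card : ℕ) : ℝ) / N -
          x.1 * x.2| ≤ (4 + 8 * (q * (2 * q ^ c + Q)) + 16 * (q * R)) * l ^ 2 / N := by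
    intro x
    have h1 := hcount x.1 x.2 x.1.2.1 x.1.2.2 x.2.2.1 x.2.2.2
    rw [← card_eq] at h1
    set y : ℝ := ((by classical exact ((range N).filter fun n : ℕ =>
        kronecker E Θ n < (x.1 : ℝ) ∧ vanDerCorput E P n < (x.2 : ℝ)).card : ℕ) : ℝ) with hy
    have e : y / N - (x.1 : ℝ) * x.2 = (y - x.1 * x.2 * N) / N := by
      field_simp
    rw [e, abs_div, abs_of_pos hN']
    exact div_le_div_of_nonneg_right h1 hN'.le
  exact ciSup_le fun x => hbound x

end Pool.Agent.Results.MP_05fa0d_nt.HybridLowDiscrepancy
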